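import Pool.Agent.Helper30.ML.Goals

/-!
Project ML (MP_bf413e_co), packet LC: the link is connected.
-/

set_option autoImplicit false

namespace Pool.Agent.Helper36.ML

open scoped Classical
open Finset
open Pool.Agent.Helper30.ML
open Pool.Agent.Helper94.KC (Proper InChain KStep KEq AllEq dR QG Even2)

/-- Adding an edge mod 2. -/
theorem toggle {α : Type} (z : Finset α) (e : α) :
    ∃ z' : Finset α, (∀ a ∈ z', a = e ∨ a ∈ z) ∧ ∀ P : α → Prop,
      Even ((z'.filter P).card + (z.filter P).card + if P e then 1 else 0) := by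
  by_cases he : e ∈ z
  · refine ⟨z.erase e, fun a ha => Or.inr (Finset.mem_of_mem_erase ha), fun P => ?_⟩
    rw [Finset.filter_erase]
    split_ifs with hP
    · have hmem : e ∈ z.filter P := Finset.mem_filter.mpr ⟨he, hP⟩
      have h1 := Finset.card_erase_add_one hmem
      rw [← h1]
      exact ⟨((z.filter P).erase e).card + 1, by ring⟩
    · have hmem : e ∉ z.filter P := fun h => hP (Finset.mem_filter.mp h).2
      rw [Finset.erase_eq_of_notMem hmem]
      exact ⟨(z.filter P).card, by ring⟩
  · refine ⟨insert e z, fun a ha => Finset.mem_insert.mp ha, fun P => ?_⟩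
    rw [Finset.filter_insert]
    split_ifs with hP
    · have hmem : e ∉ z.filter P := fun h => he (Finset.mem_filter.mp h).1
      rw [Finset.card_insert_of_notMem hmem]
      exact ⟨(z.filter P).card + 1, by ring⟩
    · exact ⟨(z.filter P).card, by ring⟩

theorem mem_eG {V : Type} [Fintype V] (G : SimpleGraph V) (e : Finset V) :
    e ∈ eG G ↔ ∃ u v, G.Adj u v ∧ e = {u, v} := by
  unfold eG
  rw [Finset.mem_filter]
  exact ⟨fun h => h.2, fun h => ⟨Finset.mem_univ _, h⟩⟩

/-- Two reachable points are joined by a set of edges, which has odd degree exactly at the two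
points. -/
theorem path_set {V : Type} [Fintype V] (G : SimpleGraph V) (x y : V) (h : G.Reachable x y) :
    ∃ z ⊆ eG G, ∀ u : V, Even ((z.filter (fun e => u ∈ e)).card + (if u = x then 1 else 0) +
      (if u = y then 1 else 0)) := by
  rw [SimpleGraph.reachable_iff_reflTransGen] at h
  induction h with
  | refl =>
    refine ⟨∅, Finset.empty_subset _, fun u => ?_⟩
    rw [Finset.filter_empty, Finset.card_empty]
    split_ifs <;> decide
  | @tail b c _ hbc ih =>
    obtain ⟨z, hz, hd⟩ := ih
    obtain ⟨z', hz', ht⟩ := toggle z ({b, c} : Finset V)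
    refine ⟨z', ?_, fun u => ?_⟩
    · intro e he
      rcases hz' e he with rfl | h
      · rw [mem_eG]
        exact ⟨b, c, hbc, rfl⟩
      · exact hz h
    · have h1 := hd u
      have h2 : Even ((z'.filter (fun e => u ∈ e)).card + (z.filter (fun e => u ∈ e)).card +
          if u ∈ ({b, c} : Finset V) then 1 else 0) := by
        convert ht (fun e => u ∈ e)
      have hne : b ≠ c := hbc.ne
      rw [Nat.even_iff] at h1 h2 ⊢
      generalize (if u = x then 1 else 0) = w at h1 ⊢
      by_cases hb : u = b
      · have hc : u ≠ c := fun h => hne (hb.symm.trans h)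
        rw [if_pos (by rw [hb]; simp)] at h2
        rw [if_pos hb] at h1
        rw [if_neg hc]
        omega
      · rw [if_neg hb] at h1
        by_cases hc : u = c
        · rw [if_pos (by rw [hc]; simp)] at h2
          rw [if_pos hc]
          omega
        · rw [if_neg (by simp [hb, hc])] at h2
          rw [if_neg hc]
          omega

theorem pLC : StmtLC := by
  intro V _ G m f v x y C hM hvx hvy hx hy hreach
  obtain ⟨z0, hz0, hd0⟩ := path_set (del G v) x y hreach
  have hxv : x ≠ v := hvx.ne'
  have hyv : y ≠ v := hvy.ne'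
  have hxy : x ≠ y := fun h => hy (h ▸ hx)
  -- the edges of `z0` do not contain `v`
  have hnv : ∀ e ∈ z0, v ∉ e := by
    intro e he hve
    obtain ⟨a, b, hab, rfl⟩ := (mem_eG _ _).mp (hz0 he)
    rw [Finset.mem_insert, Finset.mem_singleton] at hve
    rcases hve with h | h
    · exact hab.2.1 h.symm
    · exact hab.2.2 h.symm
  have hpair : ∀ a b : V, a ≠ v → ({v, b} : Finset V) = {v, a} → b = a := by
    intro a b ha h
    have h1 : a ∈ ({v, b} : Finset V) := by rw [h]; simp
    rw [Finset.mem_insert, Finset.mem_singleton] at h1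
    rcases h1 with h2 | h2
    · exact absurd h2 ha
    · exact h2.symm
  have n1 : ({v, y} : Finset V) ∉ z0 := fun h => hnv _ h (by simp)
  have n2 : ({v, x} : Finset V) ∉ insert ({v, y} : Finset V) z0 := by
    rw [Finset.mem_insert]
    rintro (h | h)
    · exact hxy (hpair y x hyv h)
    · exact hnv _ h (by simp)
  set z : Finset (Finset V) := insert {v, x} (insert {v, y} z0) with hz
  have hzG : z ⊆ eG G := by
    intro e he
    rw [hz, Finset.mem_insert, Finset.mem_insert] at he
    rw [mem_eG]
    rcases he with rfl | rfl | h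
    · exact ⟨v, x, hvx, rfl⟩
    · exact ⟨v, y, hvy, rfl⟩
    · obtain ⟨a, b, hab, rfl⟩ := (mem_eG _ _).mp (hz0 h)
      exact ⟨a, b, hab.1, rfl⟩
  have hcard : ∀ u : V, (z.filter (fun e => u ∈ e)).card =
      (z0.filter (fun e => u ∈ e)).card + (if u ∈ ({v, x} : Finset V) then 1 else 0) +
        (if u ∈ ({v, y} : Finset V) then 1 else 0) := by
    intro u
    have m1 : ({v, y} : Finset V) ∉ z0.filter (fun e => u ∈ e) :=
      fun h => n1 (Finset.mem_filter.mp h).1
    have m2 : ({v, x} : Finset V) ∉ (insert ({v, y} : Finset V) z0).filter (fun e => u ∈ e) :=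
      fun h => n2 (Finset.mem_filter.mp h).1
    rw [hz, Finset.filter_insert]
    have h1 : ((insert ({v, y} : Finset V) z0).filter (fun e => u ∈ e)).card =
        (z0.filter (fun e => u ∈ e)).card + (if u ∈ ({v, y} : Finset V) then 1 else 0) := by
      rw [Finset.filter_insert]
      by_cases h : u ∈ ({v, y} : Finset V)
      · rw [if_pos h, if_pos h, Finset.card_insert_of_notMem m1]
      · rw [if_neg h, if_neg h, add_zero]
    by_cases h : u ∈ ({v, x} : Finset V)
    · rw [if_pos h, if_pos h, Finset.card_insert_of_notMem m2, h1]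
      ring
    · rw [if_neg h, if_neg h, h1]
      ring
  have heven : Even2 z := by
    intro u
    rw [hcard u]
    have h1 := hd0 u
    rw [Nat.even_iff] at h1 ⊢
    by_cases huv : u = v
    · have hux : u ≠ x := fun h => hxv (h.symm.trans huv)
      have huy : u ≠ y := fun h => hyv (h.symm.trans huv)
      rw [if_pos (by rw [huv]; simp), if_pos (by rw [huv]; simp)]
      rw [if_neg hux, if_neg huy] at h1
      omega
    · have e1 : (u ∈ ({v, x} : Finset V)) = (u = x) := by
        simp [huv]
      have e2 : (u ∈ ({v, y} : Finset V)) = (u = y) := by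
        simp [huv]
      simp only [e1, e2]
      exact h1
  obtain ⟨J, hJ⟩ := hM.span z hzG heven
  have hfil : C.filter (fun c => Odd (J.filter (fun i => ({v, c} : Finset V) ∈ f i)).card) = {x} := by
    ext c
    rw [Finset.mem_filter, ← hJ, Finset.mem_singleton, hz, Finset.mem_insert, Finset.mem_insert]
    constructor
    · rintro ⟨hc, h | h | h⟩
      · exact hpair x c hxv h
      · exact absurd (hpair y c hyv h ▸ hc) hy
      · exact absurd (by simp) (hnv _ h)
    · rintro rfl
      exact ⟨hx, Or.inl rfl⟩
  have hodd : Odd (∑ c ∈ C, (J.filter (fun i => ({v, c} : Finset V) ∈ f i)).card) := by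
    rw [Finset.odd_sum_iff_odd_card_odd, hfil, Finset.card_singleton]
    exact odd_one
  have hswap : ∑ c ∈ C, (J.filter (fun i => ({v, c} : Finset V) ∈ f i)).card =
      ∑ i ∈ J, (C.filter (fun c => ({v, c} : Finset V) ∈ f i)).card := by
    simp only [Finset.card_filter]
    exact Finset.sum_comm
  rw [hswap, Finset.odd_sum_iff_odd_card_odd] at hodd
  have hpos := hodd.pos
  obtain ⟨i, hi⟩ := Finset.card_pos.mp hpos
  exact ⟨i, (Finset.mem_filter.mp hi).2⟩

end Pool.Agent.Helper36.ML
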