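import Pool.Agent.Helper30.ML.Goals

/-!
Project ML (MP_bf413e_co), packet T5: the link is not complete.
-/

set_option autoImplicit false

namespace Pool.Agent.Helper36.ML

open scoped Classical
open Finset
open Pool.Agent.Helper30.ML
open Pool.Agent.Helper94.KC (Proper InChain KStep KEq AllEq dR QG Even2)

theorem pT5 (hKB : StmtKB) (hT1 : StmtT1) : StmtT5 := by
  intro V _ G v w hw hv hX H1 H2 H3
  have hprop := hKB.1
  have hsym := hKB.2.2.1
  have htrans : ∀ f g h : V → Fin 5, KEq G f g → KEq G g h → KEq G f h :=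
    fun f g h h1 h2 => Relation.ReflTransGen.trans h1 h2
  -- a colouring with equal colours at `w 0`, `w 1` is equivalent to one with different colours
  have key : ∀ f : V → Fin 5, Proper G f → f (w 0) = f (w 1) →
      ∃ h : V → Fin 5, Proper G h ∧ h (w 0) ≠ h (w 1) ∧ KEq G f h := by
    intro f hf h01
    obtain ⟨g, hfg, j, k, hjk, hn1, hn2, hg⟩ := hT1 V G v w hw hv hX f hf h01
    have hgp : Proper G g := hprop V G f g hfg hf
    have hadj : ¬ G.Adj (w j) (w k) := fun h => hgp _ _ h hg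
    obtain ⟨h3, h, hh, hhe, hhn⟩ := H3 j k hjk hn1 hn2 hadj
    exact ⟨h, hh, hhn, htrans _ _ _ hfg (h3 g h hgp hh hg hhe)⟩
  intro f g hf hg
  by_cases h1 : f (w 0) = f (w 1)
  · obtain ⟨h, hh, hhn, hfh⟩ := key f hf h1
    by_cases h2 : g (w 0) = g (w 1)
    · exact H2 f g hf hg h1 h2
    · exact htrans _ _ _ hfh (H1 h g hh hg hhn h2)
  · by_cases h2 : g (w 0) = g (w 1)
    · obtain ⟨h, hh, hhn, hgh⟩ := key g hg h2
      exact htrans _ _ _ (H1 f h hf hh h1 hhn) (hsym V G _ _ hgh)
    · exact H1 f g hf hg h1 h2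

end Pool.Agent.Helper36.ML
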